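import Pool.Agent.XD.Num.Euler

/-!
# XD, module N8: the signs of the numbers

Let `N_e` be the number of `s < t` with `e s = e`.  If `A e m t l ≥ 0` for `l < J` then `N_e ≤ m^e` for
`e < J` (`A e m _ e` starts at `≤ m^e`, never rises and drops by `1` for each exponent `e`).

`step`: `J ≥ 2` (for `J ≤ 1` take `c' = 1/2`: `A e m t 0 = 1`, `A e m t 1 = m`).  By `A_euler`
`J A_J ≥ m A_{J-1} - ∑_{2 ≤ e ≤ J} e N_e A_{J-e} - C m^(J-1)`, so, if `A_J ≤ c' m^J`, some `e ≤ J` has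
`e N_e ≥ (c / (4 J)) m^e`; and then `(J+1) A_{J+1} ≤ m A_J + C m^J - e N_e A_{J+1-e}`, where
`1 ≤ J + 1 - e < J` and so `A_{J+1-e} ≥ c m^(J+1-e)`; `C` depends on `J` only, `c'` is small (about
`c² / (16 J)`), `m` large.  (The other `s` with `e s ∣ l + 1`, `e s < l + 1`: their number is `≤ m^l` for each
`e s < J`; those with `e s = J` or `J + 1` only help in the upper bound.)

`layer`, first part: if `A_J < c m^J` for some `J < d` (take the least one, `c` small) then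
`A_{J+1} < 0` by `step`.  Second part: let `J < d` be the least degree with `A_J ≤ 0`; by the first part
(with `d := J - 1`) `A_l ≥ c m^l` for `l < J - 1`; `step` at `J - 1` or at `J`.
-/

set_option autoImplicit false

namespace Pool.Agent.XD

open Finset

/-- the number of exponents equal to `a` -/
private def cN (e : ℕ → ℕ) (t a : ℕ) : ℕ := ((range t).filter (fun s => e s = a)).card

private theorem cN_le {e : ℕ → ℕ} (he : ∀ s, 1 ≤ e s) {m t J : ℕ} (h : ∀ j < J, 0 ≤ A e m t j)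
    {a : ℕ} (ha : a < J) : (cN e t a : ℤ) ≤ (m : ℤ) ^ a := by
  have key : ∀ T, T ≤ t → A e m T a + (cN e T a : ℤ) ≤ (Nat.multichoose m a : ℤ) := by
    intro T
    induction T with
    | zero =>
      intro _
      simp [cN, A_zero]
    | succ T ih =>
      intro hT
      have h1 := ih (by omega)
      have hc : cN e (T + 1) a = cN e T a + if e T = a then 1 else 0 := by
        unfold cN
        rw [range_add_one, filter_insert]
        split_ifs with hh
        · rw [card_insert_of_notMem (by simp)]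
        · simp
      rw [A_succ, hc]
      by_cases h2 : e T = a
      · rw [if_pos h2, if_pos h2.le, h2, Nat.sub_self, A_deg_zero he]
        push_cast
        linarith
      · rw [if_neg h2]
        by_cases h3 : e T ≤ a
        · rw [if_pos h3]
          have h4 : A e m t (a - e T) ≤ A e m T (a - e T) :=
            A_anti_t he h (by omega) (by omega)
          have h5 := h (a - e T) (by omega)
          push_cast
          linarith
        · rw [if_neg h3]
          push_cast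
          linarith
  have h1 := key t le_rfl
  have h2 := h a ha
  have h3 : (Nat.multichoose m a : ℤ) ≤ (m : ℤ) ^ a := by exact_mod_cast multichoose_le_pow m a
  linarith

/-- the sum of the exponents dividing `k` -/
private def sD (e : ℕ → ℕ) (t k : ℕ) : ℕ := ∑ s ∈ (range t).filter (fun s => e s ∣ k), e s

private theorem cN_sum (e : ℕ → ℕ) (t a : ℕ) :
    ∑ s ∈ (range t).filter (fun s => e s = a), e s = a * cN e t a := by
  rw [sum_congr rfl (fun s hs => (mem_filter.1 hs).2), sum_const, smul_eq_mul, mul_comm]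
  rfl

private theorem le_sD (e : ℕ → ℕ) (t a : ℕ) : a * cN e t a ≤ sD e t a := by
  rw [← cN_sum, sD]
  refine sum_le_sum_of_subset ?_
  intro s hs
  rw [mem_filter] at hs ⊢
  exact ⟨hs.1, by rw [hs.2]⟩

private theorem sD_one {e : ℕ → ℕ} (he : ∀ s, 2 ≤ e s) (t : ℕ) : sD e t 1 = 0 := by
  unfold sD
  refine sum_eq_zero ?_
  intro s hs
  have h1 := Nat.dvd_one.1 (mem_filter.1 hs).2
  have h2 := he s
  omega

private theorem sD_le {e : ℕ → ℕ} (he : ∀ s, 1 ≤ e s) {m t J : ℕ} (hm : 1 ≤ m)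
    (h : ∀ j < J, 0 ≤ A e m t j) {l : ℕ} (hl : l < J) :
    sD e t (l + 1) ≤ (l + 1) * cN e t (l + 1) + (l + 1) ^ 2 * m ^ l := by
  have h1 : sD e t (l + 1) ≤ ∑ s ∈ (range t).filter (fun s => e s = l + 1), e s +
      ∑ s ∈ (range t).filter (fun s => e s ≤ l), e s := by
    unfold sD
    rw [← sum_union]
    · refine sum_le_sum_of_subset ?_
      intro s hs
      rw [mem_filter] at hs
      rw [mem_union, mem_filter, mem_filter]
      have := Nat.le_of_dvd (by omega) hs.2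
      rcases Nat.lt_or_ge l (e s) with h2 | h2
      · left
        exact ⟨hs.1, by omega⟩
      · right
        exact ⟨hs.1, h2⟩
    · rw [disjoint_filter]
      intro s _ h2
      omega
  have h2 : ∑ s ∈ (range t).filter (fun s => e s ≤ l), e s ≤
      l * ((range t).filter (fun s => e s ≤ l)).card := by
    calc ∑ s ∈ (range t).filter (fun s => e s ≤ l), e s
        ≤ ∑ _s ∈ (range t).filter (fun s => e s ≤ l), l :=
          sum_le_sum fun s hs => (mem_filter.1 hs).2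
      _ = l * ((range t).filter (fun s => e s ≤ l)).card := by
          rw [sum_const, smul_eq_mul, mul_comm]
  have h3 : ((range t).filter (fun s => e s ≤ l)).card ≤ (l + 1) * m ^ l := by
    rw [card_eq_sum_card_fiberwise (f := e) (t := range (l + 1))]
    · calc ∑ a ∈ range (l + 1), (((range t).filter (fun s => e s ≤ l)).filter
            (fun s => e s = a)).card ≤ ∑ _a ∈ range (l + 1), m ^ l := by
            refine sum_le_sum ?_
            intro a ha
            rw [mem_range] at ha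
            have h4 : (((range t).filter (fun s => e s ≤ l)).filter
                (fun s => e s = a)).card ≤ cN e t a := by
              refine card_le_card ?_
              intro s hs
              rw [mem_filter, mem_filter] at hs
              rw [mem_filter]
              exact ⟨hs.1.1, hs.2⟩
            have h5 : (cN e t a : ℤ) ≤ (m : ℤ) ^ a := cN_le he h (by omega)
            have h6 : cN e t a ≤ m ^ a := by exact_mod_cast h5
            have h7 : m ^ a ≤ m ^ l := Nat.pow_le_pow_right hm (by omega)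
            exact h4.trans (h6.trans h7)
        _ = (l + 1) * m ^ l := by rw [sum_const, card_range, smul_eq_mul]
    · intro s hs
      have := (mem_filter.1 (mem_coe.1 hs)).2
      simp only [coe_range, Set.mem_Iio]
      omega
  have h4 := cN_sum e t (l + 1)
  have h5 : l * ((range t).filter (fun s => e s ≤ l)).card ≤ (l + 1) ^ 2 * m ^ l := by
    calc l * ((range t).filter (fun s => e s ≤ l)).card ≤ (l + 1) * ((l + 1) * m ^ l) :=
          Nat.mul_le_mul (by omega) h3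
      _ = (l + 1) ^ 2 * m ^ l := by ring
  omega

private theorem euler_real {e : ℕ → ℕ} (he : ∀ t, 1 ≤ e t) (m t j : ℕ) (hm : 1 ≤ m) :
    ((j : ℝ) + 1) * (A e m t (j + 1) : ℝ) = ∑ l ∈ range (j + 1),
      ((m : ℝ) - (sD e t (l + 1) : ℝ)) * (A e m t (j - l) : ℝ) := by
  have h := congrArg (Int.cast (R := ℝ)) (A_euler he m t j hm)
  push_cast at h
  rw [h]
  refine sum_congr rfl ?_
  intro l _
  unfold sD
  push_cast
  rfl

/-- The main case of `step`. -/
private theorem step_aux (K : ℕ) (hK : 1 ≤ K) (c : ℝ) (hc : 0 < c) (c' : ℝ) (hc' : 0 < c')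
    (h1 : (K + 1 : ℝ) * c' ≤ c / 4) (h2 : (K + 2 : ℝ) * c' ≤ c ^ 2 / (8 * (K + 1))) (m : ℕ)
    (hm : 1 ≤ m) (hm1 : 4 * (K + 1 : ℝ) ^ 3 / c < m) (hm2 : 8 * (K + 1 : ℝ) ^ 2 / c ^ 2 ≤ m)
    (e : ℕ → ℕ) (he : ∀ s, 2 ≤ e s) (t : ℕ)
    (hA : ∀ l < K + 1, c * (m : ℝ) ^ l ≤ (A e m t l : ℝ))
    (hJ : (A e m t (K + 1) : ℝ) ≤ c' * (m : ℝ) ^ (K + 1)) :
    (A e m t (K + 2) : ℝ) ≤ -(c' * (m : ℝ) ^ (K + 2)) := by
  have he1 : ∀ s, 1 ≤ e s := fun s => (by decide : 1 ≤ 2).trans (he s)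
  have hM : (0 : ℝ) < m := by exact_mod_cast hm
  have hM1 : (1 : ℝ) ≤ m := by exact_mod_cast hm
  have hKr : (0 : ℝ) < (K : ℝ) + 1 := by positivity
  have hApos : ∀ l < K + 1, (0 : ℝ) ≤ (A e m t l : ℝ) := fun l hl =>
    le_trans (by positivity) (hA l hl)
  have hAz : ∀ l < K + 1, 0 ≤ A e m t l := fun l hl => by exact_mod_cast hApos l hl
  have hAle : ∀ l ≤ K + 1, (A e m t l : ℝ) ≤ (m : ℝ) ^ l := fun l hl => by
    exact_mod_cast A_le_pow he1 hAz hl
  -- a large number of exponents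
  have hex : ∃ l, 1 ≤ l ∧ l ≤ K ∧
      c / (2 * (K + 1)) * (m : ℝ) ^ (l + 1) ≤ ((l : ℝ) + 1) * cN e t (l + 1) := by
    by_contra hcon
    push Not at hcon
    have hE := euler_real he1 m t K hm
    have hlow : (m : ℝ) * (A e m t K : ℝ) - ∑ _l ∈ range K,
        (c / (2 * (K + 1)) * (m : ℝ) ^ (K + 1) + (K + 1 : ℝ) ^ 2 * (m : ℝ) ^ K) ≤
        ∑ l ∈ range (K + 1), ((m : ℝ) - (sD e t (l + 1) : ℝ)) * (A e m t (K - l) : ℝ) := by
      rw [sum_range_succ', sD_one he]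
      have h3 : ∑ l ∈ range K, -(c / (2 * (K + 1)) * (m : ℝ) ^ (K + 1) +
          (K + 1 : ℝ) ^ 2 * (m : ℝ) ^ K) ≤ ∑ l ∈ range K,
          ((m : ℝ) - (sD e t (l + 1 + 1) : ℝ)) * (A e m t (K - (l + 1)) : ℝ) := by
        refine sum_le_sum ?_
        intro l hl
        rw [mem_range] at hl
        have h4 : sD e t (l + 1 + 1) ≤ (l + 1 + 1) * cN e t (l + 1 + 1) +
            (l + 1 + 1) ^ 2 * m ^ (l + 1) := sD_le he1 hm hAz (by omega)
        have h5 : (sD e t (l + 1 + 1) : ℝ) ≤ ((l : ℝ) + 1 + 1) * cN e t (l + 1 + 1) +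
            ((l : ℝ) + 1 + 1) ^ 2 * (m : ℝ) ^ (l + 1) := by exact_mod_cast h4
        have h6 := hcon (l + 1) (by omega) (by omega)
        push_cast at h6
        have h7 : ((l : ℝ) + 1 + 1) ≤ K + 1 := by
          have : l + 1 + 1 ≤ K + 1 := by omega
          exact_mod_cast this
        have h8 : ((l : ℝ) + 1 + 1) ^ 2 ≤ (K + 1 : ℝ) ^ 2 :=
          pow_le_pow_left₀ (by positivity) h7 2
        have hB := hApos (K - (l + 1)) (by omega)
        have hB2 := hAle (K - (l + 1)) (by omega)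
        have hp1 : (m : ℝ) ^ (l + 1 + 1) * (m : ℝ) ^ (K - (l + 1)) = (m : ℝ) ^ (K + 1) := by
          rw [← pow_add]
          congr 1
          omega
        have hp2 : (m : ℝ) ^ (l + 1) * (m : ℝ) ^ (K - (l + 1)) = (m : ℝ) ^ K := by
          rw [← pow_add]
          congr 1
          omega
        have h9 : (sD e t (l + 1 + 1) : ℝ) ≤ c / (2 * (K + 1)) * (m : ℝ) ^ (l + 1 + 1) +
            (K + 1 : ℝ) ^ 2 * (m : ℝ) ^ (l + 1) := by
          have h10 : ((l : ℝ) + 1 + 1) ^ 2 * (m : ℝ) ^ (l + 1) ≤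
              (K + 1 : ℝ) ^ 2 * (m : ℝ) ^ (l + 1) :=
            mul_le_mul_of_nonneg_right h8 (by positivity)
          linarith
        have h11 : ((m : ℝ) - (sD e t (l + 1 + 1) : ℝ)) * (A e m t (K - (l + 1)) : ℝ) ≥
            -((sD e t (l + 1 + 1) : ℝ) * (A e m t (K - (l + 1)) : ℝ)) := by
          have := mul_nonneg hM.le hB
          nlinarith
        have h12 : (sD e t (l + 1 + 1) : ℝ) * (A e m t (K - (l + 1)) : ℝ) ≤
            (c / (2 * (K + 1)) * (m : ℝ) ^ (l + 1 + 1) +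
            (K + 1 : ℝ) ^ 2 * (m : ℝ) ^ (l + 1)) * (m : ℝ) ^ (K - (l + 1)) :=
          mul_le_mul h9 hB2 hB (by positivity)
        have h13 : (c / (2 * (K + 1)) * (m : ℝ) ^ (l + 1 + 1) +
            (K + 1 : ℝ) ^ 2 * (m : ℝ) ^ (l + 1)) * (m : ℝ) ^ (K - (l + 1)) =
            c / (2 * (K + 1)) * (m : ℝ) ^ (K + 1) + (K + 1 : ℝ) ^ 2 * (m : ℝ) ^ K := by
          rw [add_mul, mul_assoc, hp1, mul_assoc, hp2]
        linarith
      rw [sum_neg_distrib] at h3
      simp only [Nat.cast_zero, sub_zero, Nat.sub_zero]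
      linarith
    rw [← hE] at hlow
    rw [sum_const, card_range, nsmul_eq_mul] at hlow
    have h3 := hA K (by omega)
    have h4 : ((K : ℝ) + 1) * (A e m t (K + 1) : ℝ) ≤ c / 4 * (m : ℝ) ^ (K + 1) := by
      calc ((K : ℝ) + 1) * (A e m t (K + 1) : ℝ) ≤ ((K : ℝ) + 1) * (c' * (m : ℝ) ^ (K + 1)) :=
            mul_le_mul_of_nonneg_left hJ hKr.le
        _ = (((K : ℝ) + 1) * c') * (m : ℝ) ^ (K + 1) := by ring
        _ ≤ c / 4 * (m : ℝ) ^ (K + 1) := mul_le_mul_of_nonneg_right h1 (by positivity)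
    have h5 : (m : ℝ) * (A e m t K : ℝ) ≥ c * (m : ℝ) ^ (K + 1) := by
      have := mul_le_mul_of_nonneg_left h3 hM.le
      calc (m : ℝ) * (A e m t K : ℝ) ≥ (m : ℝ) * (c * (m : ℝ) ^ K) := this
        _ = c * (m : ℝ) ^ (K + 1) := by ring
    have h6 : (K : ℝ) * (c / (2 * (K + 1)) * (m : ℝ) ^ (K + 1)) ≤ c / 2 * (m : ℝ) ^ (K + 1) := by
      have : (K : ℝ) * (c / (2 * (K + 1))) ≤ c / 2 := by
        rw [mul_div_assoc', div_le_div_iff₀ (by positivity) (by positivity)]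
        nlinarith
      calc (K : ℝ) * (c / (2 * (K + 1)) * (m : ℝ) ^ (K + 1))
          = ((K : ℝ) * (c / (2 * (K + 1)))) * (m : ℝ) ^ (K + 1) := by ring
        _ ≤ c / 2 * (m : ℝ) ^ (K + 1) := mul_le_mul_of_nonneg_right this (by positivity)
    have h7 : (K : ℝ) * ((K + 1 : ℝ) ^ 2 * (m : ℝ) ^ K) < c / 4 * (m : ℝ) ^ (K + 1) := by
      have h8 : 4 * (K + 1 : ℝ) ^ 3 < m * c := (div_lt_iff₀ hc).1 hm1
      have h9 : (0 : ℝ) < (m : ℝ) ^ K := by positivity
      have h10 : (K : ℝ) * (K + 1 : ℝ) ^ 2 ≤ (K + 1 : ℝ) ^ 3 := by nlinarith [sq_nonneg ((K : ℝ) + 1)]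
      calc (K : ℝ) * ((K + 1 : ℝ) ^ 2 * (m : ℝ) ^ K) = ((K : ℝ) * (K + 1 : ℝ) ^ 2) * (m : ℝ) ^ K := by
            ring
        _ ≤ (K + 1 : ℝ) ^ 3 * (m : ℝ) ^ K := mul_le_mul_of_nonneg_right h10 h9.le
        _ < (m * c / 4) * (m : ℝ) ^ K := mul_lt_mul_of_pos_right (by linarith) h9
        _ = c / 4 * (m : ℝ) ^ (K + 1) := by ring
    nlinarith
  obtain ⟨l₀, hl1, hl2, hl3⟩ := hex
  have hE := euler_real he1 m t (K + 1) hm
  -- upper bound
  set X : ℝ := c ^ 2 / (2 * (K + 1)) * (m : ℝ) ^ (K + 2) with hX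
  have hup : ∑ l ∈ range (K + 1 + 1), ((m : ℝ) - (sD e t (l + 1) : ℝ)) *
      (A e m t (K + 1 - l) : ℝ) ≤ c' * (m : ℝ) ^ (K + 2) + ∑ l ∈ range (K + 1),
      ((m : ℝ) ^ (K + 1) - if l + 1 = l₀ then X else 0) := by
    rw [sum_range_succ', sD_one he, add_comm]
    refine add_le_add ?_ (sum_le_sum ?_)
    · simp only [Nat.cast_zero, sub_zero, Nat.sub_zero]
      calc (m : ℝ) * (A e m t (K + 1) : ℝ) ≤ (m : ℝ) * (c' * (m : ℝ) ^ (K + 1)) :=
            mul_le_mul_of_nonneg_left hJ hM.le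
        _ = c' * (m : ℝ) ^ (K + 2) := by ring
    · intro l hl
      rw [mem_range] at hl
      have hB := hApos (K + 1 - (l + 1)) (by omega)
      have hB2 := hAle (K + 1 - (l + 1)) (by omega)
      have h3 : (m : ℝ) * (A e m t (K + 1 - (l + 1)) : ℝ) ≤ (m : ℝ) ^ (K + 1) := by
        calc (m : ℝ) * (A e m t (K + 1 - (l + 1)) : ℝ)
            ≤ (m : ℝ) * (m : ℝ) ^ (K + 1 - (l + 1)) := mul_le_mul_of_nonneg_left hB2 hM.le
          _ = (m : ℝ) ^ (K + 1 - (l + 1) + 1) := by ring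
          _ ≤ (m : ℝ) ^ (K + 1) := pow_le_pow_right₀ hM1 (by omega)
      by_cases h4 : l + 1 = l₀
      · rw [if_pos h4]
        subst h4
        have h5 : (((l : ℝ) + 1) + 1) * cN e t (l + 1 + 1) ≤ (sD e t (l + 1 + 1) : ℝ) := by
          exact_mod_cast le_sD e t (l + 1 + 1)
        push_cast at hl3
        have h6 := hA (K + 1 - (l + 1)) (by omega)
        have h7 : c / (2 * (K + 1)) * (m : ℝ) ^ (l + 1 + 1) ≤ (sD e t (l + 1 + 1) : ℝ) :=
          hl3.trans h5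
        have h8 : (c / (2 * (K + 1)) * (m : ℝ) ^ (l + 1 + 1)) * (c * (m : ℝ) ^ (K + 1 - (l + 1))) ≤
            (sD e t (l + 1 + 1) : ℝ) * (A e m t (K + 1 - (l + 1)) : ℝ) :=
          mul_le_mul h7 h6 (by positivity) (by positivity)
        have h9 : (c / (2 * (K + 1)) * (m : ℝ) ^ (l + 1 + 1)) *
            (c * (m : ℝ) ^ (K + 1 - (l + 1))) = X := by
          rw [hX]
          have : (m : ℝ) ^ (l + 1 + 1) * (m : ℝ) ^ (K + 1 - (l + 1)) = (m : ℝ) ^ (K + 2) := by
            rw [← pow_add]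
            congr 1
            omega
          rw [← this]
          ring
        nlinarith
      · rw [if_neg h4]
        have h5 : (0 : ℝ) ≤ (sD e t (l + 1 + 1) : ℝ) * (A e m t (K + 1 - (l + 1)) : ℝ) :=
          mul_nonneg (Nat.cast_nonneg _) hB
        nlinarith
  have hsum : ∑ l ∈ range (K + 1), ((m : ℝ) ^ (K + 1) - if l + 1 = l₀ then X else 0) =
      (K + 1 : ℝ) * (m : ℝ) ^ (K + 1) - X := by
    rw [sum_sub_distrib, sum_const, card_range, nsmul_eq_mul]
    have : ∑ l ∈ range (K + 1), (if l + 1 = l₀ then X else 0) = X := by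
      rw [sum_eq_single (l₀ - 1)]
      · rw [if_pos (by omega)]
      · intro b _ hb
        rw [if_neg (by omega)]
      · intro hb
        exact absurd (mem_range.2 (by omega)) hb
    rw [this]
    push_cast
    ring
  rw [hsum, ← hE] at hup
  have h3 : (K + 1 : ℝ) * (m : ℝ) ^ (K + 1) ≤ c ^ 2 / (8 * (K + 1)) * (m : ℝ) ^ (K + 2) := by
    have h4 : 8 * (K + 1 : ℝ) ^ 2 ≤ m * c ^ 2 := (div_le_iff₀ (by positivity)).1 hm2
    have h5 : (K + 1 : ℝ) ≤ c ^ 2 / (8 * (K + 1)) * m := by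
      rw [div_mul_eq_mul_div, le_div_iff₀ (by positivity)]
      nlinarith
    calc (K + 1 : ℝ) * (m : ℝ) ^ (K + 1) ≤ (c ^ 2 / (8 * (K + 1)) * m) * (m : ℝ) ^ (K + 1) :=
          mul_le_mul_of_nonneg_right h5 (by positivity)
      _ = c ^ 2 / (8 * (K + 1)) * (m : ℝ) ^ (K + 2) := by ring
  have h4 : c' * (m : ℝ) ^ (K + 2) ≤ c ^ 2 / (8 * (K + 1)) * (m : ℝ) ^ (K + 2) := by
    refine mul_le_mul_of_nonneg_right ?_ (by positivity)
    have : c' ≤ (K + 2 : ℝ) * c' := by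
      have : (0 : ℝ) ≤ K := Nat.cast_nonneg K
      nlinarith
    linarith
  have h5 : X = 4 * (c ^ 2 / (8 * (K + 1)) * (m : ℝ) ^ (K + 2)) := by
    rw [hX]
    field_simp
    ring
  have h6 : (K + 2 : ℝ) * (A e m t (K + 2) : ℝ) ≤ (K + 2 : ℝ) * -(c' * (m : ℝ) ^ (K + 2)) := by
    have h7 : (K + 2 : ℝ) * c' * (m : ℝ) ^ (K + 2) ≤
        c ^ 2 / (8 * (K + 1)) * (m : ℝ) ^ (K + 2) :=
      mul_le_mul_of_nonneg_right h2 (by positivity)
    have h8 : (K + 2 : ℝ) * (A e m t (K + 2) : ℝ) =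
        (((K + 1 : ℕ) : ℝ) + 1) * (A e m t (K + 1 + 1) : ℝ) := by
      push_cast
      ring
    rw [h8]
    nlinarith
  exact le_of_mul_le_mul_left h6 (by positivity)

private theorem A_one {e : ℕ → ℕ} (he : ∀ s, 2 ≤ e s) (m t : ℕ) : A e m t 1 = (m : ℤ) := by
  induction t with
  | zero => rw [A_zero, Nat.multichoose_one_right]
  | succ t ih =>
    rw [A_succ, ih, if_neg (by have := he t; omega), sub_zero]

theorem step (J : ℕ) (c : ℝ) (hc : 0 < c) : ∃ c' : ℝ, 0 < c' ∧ ∃ n₀ : ℕ, ∀ m, n₀ ≤ m →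
    ∀ (e : ℕ → ℕ), (∀ s, 2 ≤ e s) → ∀ t, (∀ l < J, c * (m : ℝ) ^ l ≤ (A e m t l : ℝ)) →
      (A e m t J : ℝ) ≤ c' * (m : ℝ) ^ J → (A e m t (J + 1) : ℝ) ≤ -(c' * (m : ℝ) ^ (J + 1)) := by
  match J with
  | 0 =>
    refine ⟨1 / 2, by norm_num, 1, ?_⟩
    intro m _ e he t _ h
    rw [A_deg_zero (fun s => (by decide : 1 ≤ 2).trans (he s))] at h
    norm_num at h
  | 1 =>
    refine ⟨1 / 2, by norm_num, 1, ?_⟩
    intro m hm e he t _ h
    rw [A_one he] at h
    have : (1 : ℝ) ≤ m := by exact_mod_cast hm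
    push_cast at h
    rw [pow_one] at h
    linarith
  | (K + 2) =>
    have hK : (0 : ℝ) < ((K + 1 : ℕ) : ℝ) + 1 := by positivity
    refine ⟨min (c / (4 * (((K + 1 : ℕ) : ℝ) + 1)))
      (c ^ 2 / (8 * (((K + 1 : ℕ) : ℝ) + 1) * (((K + 1 : ℕ) : ℝ) + 2))),
      lt_min (by positivity) (by positivity),
      ⌊4 * (((K + 1 : ℕ) : ℝ) + 1) ^ 3 / c⌋₊ + 1 + ⌈8 * (((K + 1 : ℕ) : ℝ) + 1) ^ 2 / c ^ 2⌉₊, ?_⟩
    intro m hm e he t h1 h2
    refine step_aux (K + 1) (by omega) c hc _ (lt_min (by positivity) (by positivity)) ?_ ?_ m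
      (by omega) ?_ ?_ e he t h1 h2
    · calc (((K + 1 : ℕ) : ℝ) + 1) * _ ≤ (((K + 1 : ℕ) : ℝ) + 1) *
            (c / (4 * (((K + 1 : ℕ) : ℝ) + 1))) :=
            mul_le_mul_of_nonneg_left (min_le_left _ _) hK.le
        _ = c / 4 := by field_simp
    · calc (((K + 1 : ℕ) : ℝ) + 2) * _ ≤ (((K + 1 : ℕ) : ℝ) + 2) *
            (c ^ 2 / (8 * (((K + 1 : ℕ) : ℝ) + 1) * (((K + 1 : ℕ) : ℝ) + 2))) :=
            mul_le_mul_of_nonneg_left (min_le_right _ _) (by positivity)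
        _ = c ^ 2 / (8 * (((K + 1 : ℕ) : ℝ) + 1)) := by field_simp
    · have h3 := Nat.lt_floor_add_one (4 * (((K + 1 : ℕ) : ℝ) + 1) ^ 3 / c)
      have h4 : ((⌊4 * (((K + 1 : ℕ) : ℝ) + 1) ^ 3 / c⌋₊ + 1 : ℕ) : ℝ) ≤ m := by
        exact_mod_cast (show ⌊4 * (((K + 1 : ℕ) : ℝ) + 1) ^ 3 / c⌋₊ + 1 ≤ m by omega)
      push_cast at h3 h4 ⊢
      linarith
    · have h3 := Nat.le_ceil (8 * (((K + 1 : ℕ) : ℝ) + 1) ^ 2 / c ^ 2)
      have h4 : ((⌈8 * (((K + 1 : ℕ) : ℝ) + 1) ^ 2 / c ^ 2⌉₊ : ℕ) : ℝ) ≤ m := by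
        exact_mod_cast (show ⌈8 * (((K + 1 : ℕ) : ℝ) + 1) ^ 2 / c ^ 2⌉₊ ≤ m by omega)
      exact h3.trans h4

/-- Positive numbers are large, one degree earlier. -/
private theorem layer_pos (d : ℕ) : ∃ c : ℝ, 0 < c ∧ ∃ n₀ : ℕ, ∀ m, n₀ ≤ m →
    ∀ (e : ℕ → ℕ), (∀ s, 2 ≤ e s) → ∀ t,
      (∀ j ≤ d, 0 < A e m t j) → ∀ j < d, c * (m : ℝ) ^ j ≤ (A e m t j : ℝ) := by
  induction d with
  | zero => exact ⟨1, one_pos, 0, fun m _ e _ t _ j hj => absurd hj (Nat.not_lt_zero j)⟩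
  | succ d ih =>
    obtain ⟨c, hc, n₀, h⟩ := ih
    obtain ⟨c', hc', n₁, h'⟩ := step d c hc
    refine ⟨min c c', lt_min hc hc', max n₀ n₁, ?_⟩
    intro m hm e he t hA j hj
    have h1 := h m ((le_max_left _ _).trans hm) e he t (fun j hj => hA j (by omega))
    rcases Nat.lt_or_ge j d with hjd | hjd
    · exact (mul_le_mul_of_nonneg_right (min_le_left _ _) (by positivity)).trans (h1 j hjd)
    · have hjd' : j = d := by omega
      subst hjd'
      by_contra hcon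
      push Not at hcon
      have h2 : (A e m t j : ℝ) ≤ c' * (m : ℝ) ^ j :=
        hcon.le.trans (mul_le_mul_of_nonneg_right (min_le_right _ _) (by positivity))
      have h3 := h' m ((le_max_right _ _).trans hm) e he t h1 h2
      have h4 : (0 : ℝ) < (A e m t (j + 1) : ℝ) := by exact_mod_cast hA (j + 1) le_rfl
      have h5 : (0 : ℝ) ≤ c' * (m : ℝ) ^ (j + 1) := by positivity
      linarith

private theorem layer_neg (d : ℕ) : ∃ c : ℝ, 0 < c ∧ ∃ n₀ : ℕ, ∀ m, n₀ ≤ m →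
    ∀ (e : ℕ → ℕ), (∀ s, 2 ≤ e s) → ∀ t,
      (∃ j < d, A e m t j ≤ 0) → ∃ j ≤ d, (A e m t j : ℝ) ≤ -(c * (m : ℝ) ^ j) := by
  induction d with
  | zero => exact ⟨1, one_pos, 0, fun m _ e _ t h => absurd h.choose_spec.1 (Nat.not_lt_zero _)⟩
  | succ d ih =>
    obtain ⟨c₁, hc₁, n₁, h₁⟩ := ih
    match d with
    | 0 =>
      refine ⟨1, one_pos, 0, ?_⟩
      intro m _ e he t h
      obtain ⟨j, hj, h⟩ := h
      have : j = 0 := by omega
      subst this
      rw [A_deg_zero (fun s => (by decide : 1 ≤ 2).trans (he s))] at h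
      omega
    | (d + 1) =>
      obtain ⟨c₂, hc₂, n₂, h₂⟩ := layer_pos d
      obtain ⟨c₃, hc₃, n₃, h₃⟩ := step d c₂ hc₂
      obtain ⟨c₄, hc₄, n₄, h₄⟩ := step (d + 1) (min c₂ c₃) (lt_min hc₂ hc₃)
      refine ⟨min c₁ (min c₃ c₄), lt_min hc₁ (lt_min hc₃ hc₄), max (max n₁ n₂) (max n₃ n₄), ?_⟩
      intro m hm e he t h
      have hm1 : n₁ ≤ m := ((le_max_left _ _).trans (le_max_left _ _)).trans hm
      have hm2 : n₂ ≤ m := ((le_max_right _ _).trans (le_max_left _ _)).trans hm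
      have hm3 : n₃ ≤ m := ((le_max_left _ _).trans (le_max_right _ _)).trans hm
      have hm4 : n₄ ≤ m := ((le_max_right _ _).trans (le_max_right _ _)).trans hm
      have hwk : ∀ (c : ℝ) (j : ℕ), min c₁ (min c₃ c₄) ≤ c → (A e m t j : ℝ) ≤ -(c * (m : ℝ) ^ j) →
          (A e m t j : ℝ) ≤ -(min c₁ (min c₃ c₄) * (m : ℝ) ^ j) := by
        intro c j hcc hA
        have : min c₁ (min c₃ c₄) * (m : ℝ) ^ j ≤ c * (m : ℝ) ^ j :=
          mul_le_mul_of_nonneg_right hcc (by positivity)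
        linarith
      by_cases hex : ∃ j < d + 1, A e m t j ≤ 0
      · obtain ⟨j, hj, hA⟩ := h₁ m hm1 e he t hex
        exact ⟨j, by omega, hwk c₁ j (min_le_left _ _) hA⟩
      · push Not at hex
        obtain ⟨j, hj, hA⟩ := h
        have hjd : j = d + 1 := by
          by_contra hne
          exact absurd (hex j (by omega)) (not_lt.2 hA)
        subst hjd
        have h5 := h₂ m hm2 e he t (fun j hj => hex j (by omega))
        rcases le_or_gt (A e m t d : ℝ) (c₃ * (m : ℝ) ^ d) with h6 | h6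
        · exact ⟨d + 1, by omega, hwk c₃ (d + 1) ((min_le_right _ _).trans (min_le_left _ _))
            (h₃ m hm3 e he t h5 h6)⟩
        · have h7 : ∀ l < d + 1, min c₂ c₃ * (m : ℝ) ^ l ≤ (A e m t l : ℝ) := by
            intro l hl
            rcases Nat.lt_or_ge l d with hld | hld
            · exact (mul_le_mul_of_nonneg_right (min_le_left _ _) (by positivity)).trans (h5 l hld)
            · have : l = d := by omega
              subst this
              exact (mul_le_mul_of_nonneg_right (min_le_right _ _) (by positivity)).trans h6.le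
          have h8 : (A e m t (d + 1) : ℝ) ≤ c₄ * (m : ℝ) ^ (d + 1) := by
            have h9 : (A e m t (d + 1) : ℝ) ≤ 0 := by exact_mod_cast hA
            exact h9.trans (by positivity)
          exact ⟨d + 1 + 1, le_rfl, hwk c₄ (d + 1 + 1) ((min_le_right _ _).trans (min_le_right _ _))
            (h₄ m hm4 e he t h7 h8)⟩

theorem layer (d : ℕ) : ∃ c : ℝ, 0 < c ∧ ∃ n₀ : ℕ, ∀ m, n₀ ≤ m →
    ∀ (e : ℕ → ℕ), (∀ s, 2 ≤ e s) → ∀ t,
      ((∀ j ≤ d, 0 < A e m t j) → ∀ j < d, c * (m : ℝ) ^ j ≤ (A e m t j : ℝ)) ∧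
      ((∃ j < d, A e m t j ≤ 0) → ∃ j ≤ d, (A e m t j : ℝ) ≤ -(c * (m : ℝ) ^ j)) := by
  obtain ⟨c₁, hc₁, n₁, h₁⟩ := layer_pos d
  obtain ⟨c₂, hc₂, n₂, h₂⟩ := layer_neg d
  refine ⟨min c₁ c₂, lt_min hc₁ hc₂, max n₁ n₂, ?_⟩
  intro m hm e he t
  constructor
  · intro h j hj
    exact (mul_le_mul_of_nonneg_right (min_le_left _ _) (by positivity)).trans
      (h₁ m ((le_max_left _ _).trans hm) e he t h j hj)
  · intro h
    obtain ⟨j, hj, hA⟩ := h₂ m ((le_max_right _ _).trans hm) e he t h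
    refine ⟨j, hj, ?_⟩
    have : min c₁ c₂ * (m : ℝ) ^ j ≤ c₂ * (m : ℝ) ^ j :=
      mul_le_mul_of_nonneg_right (min_le_right _ _) (by positivity)
    linarith

end Pool.Agent.XD
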