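import Pool.Agent.XD.Num.Star
import Pool.Agent.XD.Num.Transport

/-!
# XD, module N6: the theorem for systems

Degrees `0`, `1`: `Sys.deg_zero`, `Sys.skip` (`F m t 1 = m = A e m t 1`).  `d ≥ 2`: strong induction;
`transport` (WLOG `η ≤ 1`), `star` for `η / 4` (for the sign of `dl` in the region) and for `η / 2` with
the `ε` of `transport`; `δ = dl F e d`.  Exactness in the degrees `< d` in the region: `IH` with `η / 4`.
Then `A e m t d ≤ F m t d ≤ n^(d-j) F m t j = n^(d-j) A e m t j`.  At the end `0 ≤ δ m₁ T < 1` is an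
integer.
-/

set_option autoImplicit false

namespace Pool.Agent.XD

open Finset

private theorem eq_one {e : ℕ → ℕ} {F : ℕ → ℕ → ℕ → ℕ} (he : ∀ t, 2 ≤ e t) (hF : Sys 1 e F)
    (m t : ℕ) : (F m t 1 : ℤ) = A e m t 1 := by
  have he1 : ∀ t, 1 ≤ e t := fun t => (he t).trans' (by norm_num)
  induction t with
  | zero => rw [hF.zero m 1 le_rfl, A_zero]
  | succ t ih =>
    have h2 := he t
    rw [hF.skip he1 m t le_rfl (by omega), A_succ, if_neg (by omega), sub_zero]
    exact ih

private theorem eq_zero {e : ℕ → ℕ} {F : ℕ → ℕ → ℕ → ℕ} (he : ∀ t, 2 ≤ e t) (hF : Sys 0 e F)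
    (m t : ℕ) : (F m t 0 : ℤ) = A e m t 0 := by
  have he1 : ∀ t, 1 ≤ e t := fun t => (he t).trans' (by norm_num)
  rw [hF.deg_zero he1 m t, A_deg_zero he1]
  rfl

/-- One bound for all degrees `< d`. -/
private theorem xd_all (d : ℕ) (η : ℝ) (IH : ∀ l < d, ∃ n₀ : ℕ, Exact l η n₀) :
    ∃ N : ℕ, ∀ l < d, Exact l η N := by
  induction d with
  | zero => exact ⟨0, fun l hl => absurd hl (Nat.not_lt_zero l)⟩
  | succ d ih =>
    obtain ⟨N, hN⟩ := ih fun l hl => IH l (Nat.lt_succ_of_lt hl)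
    obtain ⟨M, hM⟩ := IH d (Nat.lt_succ_self d)
    refine ⟨max N M, fun l hl n hn => ?_⟩
    rcases Nat.lt_succ_iff_lt_or_eq.1 hl with h | rfl
    · exact hN l h n ((le_max_left _ _).trans hn)
    · exact hM n ((le_max_right _ _).trans hn)

/-- `dl` is nonnegative in the region. -/
private theorem xd_nonneg {d : ℕ} {e : ℕ → ℕ} {F : ℕ → ℕ → ℕ → ℕ} (he : ∀ t, 2 ≤ e t)
    (hF : Sys d e F) (m T : ℕ) (h0 : ∀ j < d, 0 ≤ A e m T j)
    (h : ∀ t < T, (∀ j < d, A e m T j ≤ A e m t j) → e t ≤ d → dl F e d m t ≤ dl F e d m (t + 1)) :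
    0 ≤ dl F e d m T := by
  have he1 : ∀ t, 1 ≤ e t := fun t => (he t).trans' (by norm_num)
  have key : ∀ t ≤ T, 0 ≤ dl F e d m t := by
    intro t
    induction t with
    | zero =>
      intro _
      unfold dl
      rw [hF.zero m d le_rfl, A_zero]
      simp
    | succ t ih =>
      intro ht
      refine (ih (by omega)).trans ?_
      by_cases hed : e t ≤ d
      · exact h t ht (fun j hj => A_anti_t he1 h0 (by omega) hj.le) hed
      · unfold dl
        rw [hF.skip he1 m t le_rfl (by omega), A_succ, if_neg hed, sub_zero]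
  exact key T le_rfl

private theorem xd_le_one (d : ℕ) (hd : 2 ≤ d) (IH : ∀ l < d, ∀ η : ℝ, 0 < η → ∃ n₀ : ℕ, Exact l η n₀)
    (η : ℝ) (hη : 0 < η) (hη1 : η ≤ 1) : ∃ n₀ : ℕ, Exact d η n₀ := by
  obtain ⟨ε, hε, n₂, htr⟩ := transport d hd η hη hη1
  have h2 : 0 < η / 2 := by positivity
  have h4 : 0 < η / 4 := by positivity
  obtain ⟨n₁, hst⟩ := star d hd IH (η / 2) ε h2 hε
  obtain ⟨n₃, hst'⟩ := star d hd IH (η / 4) 1 h4 one_pos
  obtain ⟨n₄, hex⟩ := xd_all d (η / 4) fun l hl => IH l hl (η / 4) h4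
  refine ⟨n₁ + n₂ + n₃ + n₄ + 1, fun n hn e F he hF m₁ T hm₁ hA => ?_⟩
  have he1 : ∀ t, 1 ≤ e t := fun t => (he t).trans' (by norm_num)
  have hn0 : (0 : ℝ) < n := by
    have : 0 < n := by omega
    exact_mod_cast this
  -- nonnegative in the region
  have hnn : ∀ m ≤ m₁, ∀ t, (∀ j < d, η / 4 * (n : ℝ) ^ j ≤ (A e m t j : ℝ)) →
      0 ≤ dl F e d m t := by
    intro m hm t ht
    refine xd_nonneg he hF m t (fun j hj => ?_) fun s _ hs hed => ?_
    · have h5 : (0 : ℝ) ≤ (A e m t j : ℝ) := le_trans (by positivity) (ht j hj)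
      exact_mod_cast h5
    · refine (hst' n (by omega) e F he hF m s (hm.trans hm₁) (fun j hj => ?_) hed).1
      refine (ht j hj).trans ?_
      exact_mod_cast hs j hj
  have hA4 : ∀ j ≤ d, η / 4 * (n : ℝ) ^ j ≤ (A e m₁ T j : ℝ) := by
    intro j hj
    refine le_trans ?_ (hA j hj)
    have : (0 : ℝ) ≤ (n : ℝ) ^ j := by positivity
    nlinarith
  have hlt : dl F e d m₁ T < 1 := by
    refine htr n (by omega) e he (dl F e d) m₁ T hm₁ hA ?_ ?_ ?_ ?_ ?_
    · intro m _
      unfold dl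
      rw [hF.zero m d le_rfl, A_zero]
      simp
    · intro m hm t _ _
      unfold dl
      have h5 : F m t d ≤ m ^ d := hF.le_pow he1 m t le_rfl
      have h6 : m ^ d ≤ n ^ d := Nat.pow_le_pow_left (hm.trans hm₁) d
      have h7 : (F m t d : ℝ) ≤ (n : ℝ) ^ d := by exact_mod_cast h5.trans h6
      linarith
    · intro m _ t _ hed
      unfold dl
      rw [hF.skip he1 m t le_rfl hed, A_succ, if_neg (by omega), sub_zero]
    · intro m hm t _ hlow htop j hj
      rcases Nat.lt_or_ge j d with hjd | hjd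
      · have h5 := hnn m hm t hlow
        have h6 : (A e m t d : ℝ) ≤ F m t d := by
          unfold dl at h5
          linarith
        have h7 : F m t d ≤ m ^ (d - j) * F m t j := hF.le_pow_mul m t hj le_rfl
        have h8 : m ^ (d - j) ≤ n ^ (d - j) := Nat.pow_le_pow_left (hm.trans hm₁) _
        have h9 : (F m t d : ℝ) ≤ (n : ℝ) ^ (d - j) * F m t j := by
          exact_mod_cast h7.trans (Nat.mul_le_mul_right _ h8)
        have h10 : (F m t j : ℤ) = A e m t j :=
          hex j hjd n (by omega) e F he (hF.mono hj) m t (hm.trans hm₁)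
            fun l hl => hlow l (lt_of_le_of_lt hl hjd)
        have h11 : (F m t j : ℝ) = (A e m t j : ℝ) := by exact_mod_cast congrArg (fun z : ℤ => (z : ℝ)) h10
        have h12 : (0 : ℝ) < (n : ℝ) ^ (d - j) := by positivity
        have h13 : (n : ℝ) ^ d = (n : ℝ) ^ (d - j) * (n : ℝ) ^ j := by
          rw [← pow_add]
          congr 1
          omega
        have h14 : (n : ℝ) ^ (d - j) * (η / 2 * (n : ℝ) ^ j) ≤ (n : ℝ) ^ (d - j) * (A e m t j : ℝ) := by
          rw [← h11]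
          calc (n : ℝ) ^ (d - j) * (η / 2 * (n : ℝ) ^ j) = η / 2 * (n : ℝ) ^ d := by rw [h13]; ring
            _ ≤ (A e m t d : ℝ) := htop
            _ ≤ F m t d := h6
            _ ≤ (n : ℝ) ^ (d - j) * F m t j := h9
        exact le_of_mul_le_mul_left h14 h12
      · obtain rfl : j = d := le_antisymm hj hjd
        exact htop
    · intro m hm t _ hreg hed
      exact hst n (by omega) e F he hF m t (hm.trans hm₁) (fun j hj => hreg j hj.le) hed
  have hge := hnn m₁ le_rfl T fun j hj => hA4 j hj.le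
  unfold dl at hlt hge
  have h5 : ((F m₁ T d : ℤ) - A e m₁ T d : ℤ) < 1 := by
    have : (((F m₁ T d : ℤ) - A e m₁ T d : ℤ) : ℝ) < 1 := by
      push_cast
      exact hlt
    exact_mod_cast this
  have h6 : (0 : ℤ) ≤ (F m₁ T d : ℤ) - A e m₁ T d := by
    have : (0 : ℝ) ≤ (((F m₁ T d : ℤ) - A e m₁ T d : ℤ) : ℝ) := by
      push_cast
      exact hge
    exact_mod_cast this
  omega

theorem xd (d : ℕ) (η : ℝ) (hη : 0 < η) : ∃ n₀ : ℕ, Exact d η n₀ := by
  induction d using Nat.strong_induction_on generalizing η with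
  | _ d IH =>
    rcases Nat.lt_or_ge d 2 with hd | hd
    · interval_cases d
      · exact ⟨0, fun n _ e F he hF m t _ _ => eq_zero he hF m t⟩
      · exact ⟨0, fun n _ e F he hF m t _ _ => eq_one he hF m t⟩
    · obtain ⟨n₀, h⟩ := xd_le_one d hd (fun l hl η' hη' => IH l hl η' hη') (min η 1)
        (lt_min hη one_pos) (min_le_right _ _)
      refine ⟨n₀, fun n hn e F he hF m t hm hA => h n hn e F he hF m t hm fun j hj => ?_⟩
      refine le_trans ?_ (hA j hj)
      exact mul_le_mul_of_nonneg_right (min_le_left _ _) (by positivity)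

/-- The lower bound: only the lower degrees are off the layer. -/
theorem xd_lower (d : ℕ) (η : ℝ) (hη : 0 < η) : ∃ n₀ : ℕ, ∀ n, n₀ ≤ n →
    ∀ (e : ℕ → ℕ) (F : ℕ → ℕ → ℕ → ℕ), (∀ t, 2 ≤ e t) → Sys d e F → ∀ m t, m ≤ n →
      (∀ j < d, η * (n : ℝ) ^ j ≤ (A e m t j : ℝ)) → A e m t d ≤ (F m t d : ℤ) := by
  rcases Nat.lt_or_ge d 2 with hd | hd
  · interval_cases d
    · exact ⟨0, fun n _ e F he hF m t _ _ => (eq_zero he hF m t).ge⟩
    · exact ⟨0, fun n _ e F he hF m t _ _ => (eq_one he hF m t).ge⟩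
  · obtain ⟨n₁, hst⟩ := star d hd (fun l _ η' hη' => xd l η' hη') η 1 hη one_pos
    refine ⟨n₁, fun n hn e F he hF m t hm hA => ?_⟩
    have h1 : 0 ≤ dl F e d m t := by
      refine xd_nonneg he hF m t (fun j hj => ?_) fun s _ hs hed => ?_
      · have h5 : (0 : ℝ) ≤ (A e m t j : ℝ) := le_trans (by positivity) (hA j hj)
        exact_mod_cast h5
      · refine (hst n hn e F he hF m s hm (fun j hj => ?_) hed).1
        refine (hA j hj).trans ?_
        exact_mod_cast hs j hj
    unfold dl at h1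
    have h2 : (A e m t d : ℝ) ≤ ((F m t d : ℤ) : ℝ) := by
      push_cast
      linarith
    exact_mod_cast h2

end Pool.Agent.XD
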