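import Pool.Agent.XD.Num.Basic

/-!
# XD, module N2: the numbers `F m t j` of a system

All from `Sys.stair` at `(m, t)` (for `m = 0` use the stair at `m = 1`, `cnt` with `i = 0`).
`le_mul`: `v ∈ lay N m (j + 1)` is `x ::ₘ u` with `x < m`, `u ∈ lay N m j`.
`ker`: `w ∈ lay N m d` with `count (m - 1) w ≥ e` is `v + replicate e (m - 1)`; for the second
formula `(lay N m d).filter (count (m - 1) = 0) = lay N (m - 1) d`.
-/

set_option autoImplicit false

namespace Pool.Agent.XD

open Finset MvPolynomial Pool.Agent.H21.HD Pool.Agent.H18.Fat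

variable {d : ℕ} {e : ℕ → ℕ} {F : ℕ → ℕ → ℕ → ℕ}

theorem Sys.mono (h : Sys d e F) {d' : ℕ} (hd : d' ≤ d) : Sys d' e F := by
  refine ⟨fun m j hj => h.zero m j (hj.trans hd), fun m t hm => ?_⟩
  obtain ⟨N, hN, hF⟩ := h.stair m t hm
  exact ⟨N, ⟨hN.lt, hN.div, hN.up, fun i hi j hj => hN.cnt i hi j (hj.trans hd)⟩,
    fun j hj => hF j (hj.trans hd)⟩

private theorem FB_lay_zero (N : Finset (Multiset ℕ)) (i : ℕ) : lay N i 0 ⊆ {0} := by
  intro v hv
  rw [mem_lay] at hv
  rw [mem_singleton]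
  exact Multiset.card_eq_zero.1 hv.2.1

private theorem FB_lay_zero_eq (N : Finset (Multiset ℕ)) (i i' : ℕ) : lay N i 0 = lay N i' 0 := by
  ext v
  rw [mem_lay, mem_lay]
  constructor
  · rintro ⟨h1, h2, -⟩
    refine ⟨h1, h2, fun x hx => ?_⟩
    rw [Multiset.card_eq_zero.1 h2] at hx
    exact absurd hx (Multiset.notMem_zero x)
  · rintro ⟨h1, h2, -⟩
    refine ⟨h1, h2, fun x hx => ?_⟩
    rw [Multiset.card_eq_zero.1 h2] at hx
    exact absurd hx (Multiset.notMem_zero x)

theorem Sys.deg_zero (h : Sys d e F) (he : ∀ t, 1 ≤ e t) (m t : ℕ) : F m t 0 = 1 := by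
  have key : ∀ t m, 1 ≤ m → F m t 0 = 1 := by
    intro t
    induction t with
    | zero =>
      intro m _
      rw [h.zero m 0 (Nat.zero_le _), Nat.multichoose_zero_right]
    | succ t ih =>
      intro m hm
      obtain ⟨N, hN, hF⟩ := h.stair m t hm
      have h1 : (lay N m 0).card = 1 := by
        rw [hN.cnt m le_rfl 0 (Nat.zero_le _)]
        exact ih m hm
      rw [hF 0 (Nat.zero_le _), ← h1]
      congr 1
      rw [filter_eq_self]
      intro v hv
      have h2 := mem_singleton.1 (FB_lay_zero N m hv)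
      rw [h2, Multiset.count_zero]
      exact he t
  rcases Nat.eq_zero_or_pos m with h0 | h0
  · subst h0
    obtain ⟨N, hN, -⟩ := h.stair 1 t le_rfl
    have h1 := hN.cnt 0 (Nat.zero_le _) 0 (Nat.zero_le _)
    have h2 := hN.cnt 1 le_rfl 0 (Nat.zero_le _)
    rw [FB_lay_zero_eq N 0 1, h2] at h1
    have h3 := key t 1 le_rfl
    exact h1.symm.trans h3
  · exact key t m h0

theorem Sys.no_vars (h : Sys d e F) (t : ℕ) {j : ℕ} (hj : j < d) : F 0 t (j + 1) = 0 := by
  obtain ⟨N, hN, -⟩ := h.stair 1 t le_rfl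
  have h1 := hN.cnt 0 (Nat.zero_le _) (j + 1) hj
  have h2 : lay N 0 (j + 1) = ∅ := by
    rw [eq_empty_iff_forall_notMem]
    intro v hv
    rw [mem_lay] at hv
    obtain ⟨x, hx⟩ := Multiset.card_pos_iff_exists_mem.1 (by rw [hv.2.1]; exact Nat.succ_pos j)
    exact absurd (hv.2.2 x hx) (Nat.not_lt_zero x)
  rw [h2, card_empty] at h1
  exact h1.symm

theorem Sys.le_mul (h : Sys d e F) (m t : ℕ) {j : ℕ} (hj : j < d) :
    F m t (j + 1) ≤ m * F m t j := by
  rcases Nat.eq_zero_or_pos m with h0 | h0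
  · subst h0
    rw [h.no_vars t hj]
    exact Nat.zero_le _
  · obtain ⟨N, hN, -⟩ := h.stair m t h0
    have h1 : (lay N m (j + 1)).card = F m t (j + 1) := hN.cnt m le_rfl (j + 1) hj
    have h2 : (lay N m j).card = F m t j := hN.cnt m le_rfl j hj.le
    rw [← h1, ← h2]
    have h3 : lay N m (j + 1) ⊆ (range m ×ˢ lay N m j).image fun p => p.1 ::ₘ p.2 := by
      intro v hv
      rw [mem_lay] at hv
      obtain ⟨x, hx⟩ := Multiset.card_pos_iff_exists_mem.1 (by rw [hv.2.1]; exact Nat.succ_pos j)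
      rw [mem_image]
      refine ⟨(x, v.erase x), ?_, Multiset.cons_erase hx⟩
      rw [mem_product, mem_range, mem_lay]
      refine ⟨hv.2.2 x hx, hN.div v hv.1 _ (Multiset.erase_le x v), ?_, fun y hy =>
        hv.2.2 y (Multiset.mem_of_mem_erase hy)⟩
      rw [Multiset.card_erase_of_mem hx, hv.2.1]
      rfl
    refine (card_le_card h3).trans (card_image_le.trans ?_)
    rw [card_product, card_range]

theorem Sys.le_pow_mul (h : Sys d e F) (m t : ℕ) {l j : ℕ} (hlj : l ≤ j) (hj : j ≤ d) :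
    F m t j ≤ m ^ (j - l) * F m t l := by
  obtain ⟨s, rfl⟩ := Nat.exists_eq_add_of_le hlj
  clear hlj
  induction s with
  | zero =>
    rw [Nat.add_zero, Nat.sub_self, pow_zero, one_mul]
  | succ s ih =>
    have h1 := ih (by omega)
    have h2 := h.le_mul m t (j := l + s) (by omega)
    have h3 : l + s - l = s := by omega
    have h4 : l + (s + 1) - l = s + 1 := by omega
    rw [h3] at h1
    rw [h4, pow_succ]
    calc F m t (l + (s + 1)) ≤ m * F m t (l + s) := h2
      _ ≤ m * (m ^ s * F m t l) := Nat.mul_le_mul_left _ h1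
      _ = m ^ s * m * F m t l := by ring

theorem Sys.anti_t (h : Sys d e F) (he : ∀ t, 1 ≤ e t) (m t : ℕ) {j : ℕ} (hj : j ≤ d) :
    F m (t + 1) j ≤ F m t j := by
  rcases Nat.eq_zero_or_pos m with h0 | h0
  · subst h0
    rcases j with _ | j
    · rw [h.deg_zero he, h.deg_zero he]
    · rw [h.no_vars (t + 1) hj]
      exact Nat.zero_le _
  · obtain ⟨N, hN, hF⟩ := h.stair m t h0
    have h1 : (lay N m j).card = F m t j := hN.cnt m le_rfl j hj
    rw [hF j hj, ← h1]
    exact card_filter_le _ _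

theorem Sys.le_pow (h : Sys d e F) (he : ∀ t, 1 ≤ e t) (m t : ℕ) {j : ℕ} (hj : j ≤ d) :
    F m t j ≤ m ^ j := by
  have h1 := h.le_pow_mul m t (Nat.zero_le j) hj
  rw [h.deg_zero he, mul_one, Nat.sub_zero] at h1
  exact h1

theorem Sys.skip (h : Sys d e F) (he : ∀ t, 1 ≤ e t) (m t : ℕ) {j : ℕ} (hj : j ≤ d)
    (hjt : j < e t) : F m (t + 1) j = F m t j := by
  rcases Nat.eq_zero_or_pos m with h0 | h0
  · subst h0
    rcases j with _ | j
    · rw [h.deg_zero he, h.deg_zero he]
    · rw [h.no_vars (t + 1) hj, h.no_vars t hj]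
  · obtain ⟨N, hN, hF⟩ := h.stair m t h0
    have h1 : (lay N m j).card = F m t j := hN.cnt m le_rfl j hj
    rw [hF j hj, ← h1]
    congr 1
    rw [filter_eq_self]
    intro v hv
    rw [mem_lay] at hv
    have h2 := Multiset.count_le_card (m - 1) v
    rw [hv.2.1] at h2
    omega

private theorem FB_ker {m d : ℕ} {N : Finset (Multiset ℕ)} {f : ℕ → ℕ → ℕ}
    (hN : Stair m d N f) (a : ℕ) (ha : a ≤ d) :
    ((lay N m d).filter fun v => v.count (m - 1) < a).card + (lay N m (d - a)).card =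
      (lay N m d).card + kk N m d a := by
  unfold kk
  have h1 := card_filter_add_card_filter_not (s := lay N m d) fun v => v.count (m - 1) < a
  have h2 := card_filter_add_card_filter_not (s := lay N m (d - a))
    fun v => v + Multiset.replicate a (m - 1) ∉ N
  have h3 : ((lay N m d).filter fun v => ¬ v.count (m - 1) < a).card =
      ((lay N m (d - a)).filter fun v => ¬ v + Multiset.replicate a (m - 1) ∉ N).card := by
    refine (card_bij (fun v _ => v + Multiset.replicate a (m - 1)) ?_ ?_ ?_).symm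
    · intro v hv
      rw [mem_filter, not_not, mem_lay] at hv
      obtain ⟨⟨h4, h5, h6⟩, h7⟩ := hv
      rw [mem_filter, mem_lay, Multiset.card_add, Multiset.card_replicate, h5,
        Multiset.count_add, Multiset.count_replicate_self]
      refine ⟨⟨h7, by omega, hN.lt _ h7⟩, by omega⟩
    · intro v _ v' _ h4
      exact add_right_cancel h4
    · intro v hv
      rw [mem_filter, mem_lay, not_lt] at hv
      obtain ⟨⟨h4, h5, h6⟩, h7⟩ := hv
      have h8 : Multiset.replicate a (m - 1) ≤ v := Multiset.le_count_iff_replicate_le.1 h7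
      have h9 : v - Multiset.replicate a (m - 1) + Multiset.replicate a (m - 1) = v :=
        Multiset.sub_add_cancel h8
      refine ⟨v - Multiset.replicate a (m - 1), ?_, h9⟩
      rw [mem_filter, not_not, mem_lay, h9, Multiset.card_sub h8, Multiset.card_replicate, h5]
      exact ⟨⟨hN.div v h4 _ (Multiset.sub_le_self _ _), rfl, fun x hx =>
        h6 x (Multiset.mem_of_le (Multiset.sub_le_self _ _) hx)⟩, h4⟩
  omega

/-- The stair at `(m, t)` and the kernels. -/
theorem Sys.ker (h : Sys d e F) (m t : ℕ) (hm : 1 ≤ m) : ∃ N : Finset (Multiset ℕ),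
    Stair m d N (fun i j => F i t j) ∧
    (e t ≤ d → F m (t + 1) d + F m t (d - e t) = F m t d + kk N m d (e t)) ∧
    (1 ≤ d → F (m - 1) t d + F m t (d - 1) = F m t d + kk N m d 1) := by
  obtain ⟨N, hN, hF⟩ := h.stair m t hm
  have hc : ∀ j ≤ d, (lay N m j).card = F m t j := fun j hj => hN.cnt m le_rfl j hj
  refine ⟨N, hN, fun he => ?_, fun hd => ?_⟩
  · rw [hF d le_rfl, ← hc d le_rfl, ← hc (d - e t) (Nat.sub_le _ _)]
    exact FB_ker hN (e t) he
  · have h1 : (lay N (m - 1) d).card = F (m - 1) t d := hN.cnt (m - 1) (Nat.sub_le _ _) d le_rfl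
    rw [← h1, ← hc d le_rfl, ← hc (d - 1) (Nat.sub_le _ _), ← FB_ker hN 1 hd]
    congr 2
    ext v
    rw [mem_filter, mem_lay, mem_lay]
    constructor
    · rintro ⟨h2, h3, h4⟩
      refine ⟨⟨h2, h3, fun x hx => lt_of_lt_of_le (h4 x hx) (Nat.sub_le _ _)⟩, ?_⟩
      rw [Nat.lt_one_iff, Multiset.count_eq_zero]
      intro h5
      exact lt_irrefl _ (h4 _ h5)
    · rintro ⟨⟨h2, h3, h4⟩, h5⟩
      refine ⟨h2, h3, fun x hx => ?_⟩
      rw [Nat.lt_one_iff, Multiset.count_eq_zero] at h5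
      have h6 := h4 x hx
      have h7 : x ≠ m - 1 := fun h8 => h5 (h8 ▸ hx)
      omega

end Pool.Agent.XD
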