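import Pool.Agent.XD.Defs

/-!
# XD, module N1: the numbers `A e m t j`

`A_pascal`: induction on `t`, `Nat.multichoose_succ_succ`.  `A_anti_t`: by strong induction on `j`
(`A e m (s + 1) j = A e m s j - A e m s (j - e s)`, the last number is `≥ A e m T (j - e s) ≥ 0`).
`A_mono_m`: `A_pascal`.  `A_le_pow`: `A_anti_t` with `t = 0` and `multichoose_le_pow`.
-/

set_option autoImplicit false

namespace Pool.Agent.XD

open Finset MvPolynomial Pool.Agent.H21.HD Pool.Agent.H18.Fat

private theorem Basic_mc_step (m j : ℕ) (hm : 1 ≤ m) :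
    Nat.multichoose m (j + 1) * (j + 1) = (m + j) * Nat.multichoose m j := by
  obtain ⟨n, rfl⟩ : ∃ n, m = n + 1 := ⟨m - 1, by omega⟩
  rw [Nat.multichoose_eq, Nat.multichoose_eq, show n + 1 + (j + 1) - 1 = n + j + 1 by omega,
    show n + 1 + j - 1 = n + j by omega, show n + 1 + j = n + j + 1 by omega]
  exact (Nat.add_one_mul_choose_eq (n + j) j).symm

theorem multichoose_le_pow (m j : ℕ) : Nat.multichoose m j ≤ m ^ j := by
  induction j with
  | zero => rw [Nat.multichoose_zero_right, pow_zero]
  | succ j ih =>
    rcases Nat.eq_zero_or_pos m with rfl | hm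
    · rw [Nat.multichoose_zero_succ]
      exact Nat.zero_le _
    have h1 := Basic_mc_step m j hm
    have h2 : m + j ≤ m * (j + 1) := by nlinarith
    apply Nat.le_of_mul_le_mul_right _ (by omega : 0 < j + 1)
    calc Nat.multichoose m (j + 1) * (j + 1) = (m + j) * Nat.multichoose m j := h1
      _ ≤ (m * (j + 1)) * m ^ j := Nat.mul_le_mul h2 ih
      _ = m ^ (j + 1) * (j + 1) := by ring

theorem A_zero (e : ℕ → ℕ) (m j : ℕ) : A e m 0 j = (Nat.multichoose m j : ℤ) := rfl

theorem A_succ (e : ℕ → ℕ) (m t j : ℕ) :
    A e m (t + 1) j = A e m t j - if e t ≤ j then A e m t (j - e t) else 0 := rfl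

theorem A_deg_zero {e : ℕ → ℕ} (he : ∀ t, 1 ≤ e t) (m t : ℕ) : A e m t 0 = 1 := by
  induction t with
  | zero => rw [A_zero, Nat.multichoose_zero_right, Nat.cast_one]
  | succ t ih =>
    have h := he t
    rw [A_succ, ih, if_neg (by omega), sub_zero]

theorem A_pascal {e : ℕ → ℕ} (he : ∀ t, 1 ≤ e t) (m t j : ℕ) :
    A e (m + 1) t (j + 1) = A e m t (j + 1) + A e (m + 1) t j := by
  induction t generalizing j with
  | zero =>
    rw [A_zero, A_zero, A_zero, Nat.multichoose_succ_succ, Nat.cast_add]
  | succ t ih =>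
    rw [A_succ, A_succ, A_succ, ih j]
    have h : (if e t ≤ j + 1 then A e (m + 1) t (j + 1 - e t) else 0) =
        (if e t ≤ j + 1 then A e m t (j + 1 - e t) else 0) +
          (if e t ≤ j then A e (m + 1) t (j - e t) else 0) := by
      rcases Nat.lt_trichotomy (e t) (j + 1) with h1 | h1 | h1
      · rw [if_pos h1.le, if_pos h1.le, if_pos (by omega), show j + 1 - e t = j - e t + 1 by omega]
        exact ih (j - e t)
      · rw [if_pos h1.le, if_pos h1.le, if_neg (by omega), h1, Nat.sub_self, A_deg_zero he,
          A_deg_zero he, add_zero]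
      · rw [if_neg (by omega), if_neg (by omega), if_neg (by omega), add_zero]
    rw [h]
    ring

/-- `A e m t j` depends only on `e 0, …, e (t - 1)`. -/
theorem A_congr {e e' : ℕ → ℕ} {t : ℕ} (h : ∀ s < t, e s = e' s) (m j : ℕ) :
    A e m t j = A e' m t j := by
  induction t generalizing j with
  | zero => rfl
  | succ t ih =>
    rw [A_succ, A_succ, ih (fun s hs => h s (by omega)) j, h t (by omega),
      ih (fun s hs => h s (by omega)) (j - e' t)]

/-- Nonnegative in the degrees `< D` for `T` powers: decreasing in `t ≤ T` in the degrees `≤ D`. -/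
theorem A_anti_t {e : ℕ → ℕ} (he : ∀ t, 1 ≤ e t) {m T D : ℕ} (h : ∀ j < D, 0 ≤ A e m T j) {t : ℕ}
    (ht : t ≤ T) {j : ℕ} (hj : j ≤ D) : A e m T j ≤ A e m t j := by
  induction j using Nat.strong_induction_on generalizing t with
  | _ j ih =>
    have hstep : ∀ s, s < T → A e m (s + 1) j ≤ A e m s j := by
      intro s hs
      rw [A_succ]
      split_ifs with h1
      · have h2 := he s
        have h3 : A e m T (j - e s) ≤ A e m s (j - e s) := ih (j - e s) (by omega) hs.le (by omega)
        have h4 := h (j - e s) (by omega)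
        linarith
      · rw [sub_zero]
    have hall : ∀ k, t + k ≤ T → A e m (t + k) j ≤ A e m t j := by
      intro k
      induction k with
      | zero => exact fun _ => le_refl _
      | succ k ihk =>
        intro hk
        exact (hstep (t + k) (by omega)).trans (ihk (by omega))
    have h5 := hall (T - t) (by omega)
    rwa [show t + (T - t) = T by omega] at h5

/-- Nonnegative in the degrees `< D` for `m` variables: increasing in the number of variables. -/
theorem A_mono_m {e : ℕ → ℕ} (he : ∀ t, 1 ≤ e t) {m t D : ℕ} (h : ∀ j < D, 0 ≤ A e m t j) {m' : ℕ}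
    (hm : m ≤ m') {j : ℕ} (hj : j ≤ D) : A e m t j ≤ A e m' t j := by
  have hall : ∀ k, ∀ j ≤ D, A e m t j ≤ A e (m + k) t j := by
    intro k
    induction k with
    | zero => exact fun j _ => le_refl _
    | succ k ihk =>
      intro j
      induction j with
      | zero =>
        intro _
        rw [A_deg_zero he, A_deg_zero he]
      | succ j ihj =>
        intro hj
        rw [show m + (k + 1) = m + k + 1 by omega, A_pascal he (m + k) t j]
        have h1 := ihk (j + 1) hj
        have h2 := ihj (by omega)
        rw [show m + (k + 1) = m + k + 1 by omega] at h2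
        have h3 := h j (by omega)
        linarith
  have h1 := hall (m' - m) j hj
  rwa [show m + (m' - m) = m' by omega] at h1

theorem A_le_pow {e : ℕ → ℕ} (he : ∀ t, 1 ≤ e t) {m t D : ℕ} (h : ∀ j < D, 0 ≤ A e m t j) {j : ℕ}
    (hj : j ≤ D) : A e m t j ≤ (m : ℤ) ^ j := by
  refine (A_anti_t he h (Nat.zero_le t) hj).trans ?_
  rw [A_zero]
  exact_mod_cast multichoose_le_pow m j

end Pool.Agent.XD
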