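import Pool.Agent.XD.Num.Basic
import Pool.Agent.H21.HD.Inst

/-!
# XD, module N7: the Euler relation

`fro_range`: induction on `t` (`fro_insert'`, `Finset.range_succ`, `Nat.multichoose_eq`).
`A_euler`: `Pool.Agent.H21.HD.fro_rec` with `P = ℕ`, `I = range t`.
-/

set_option autoImplicit false

namespace Pool.Agent.XD

open Finset Pool.Agent.H21.HD

theorem fro_range (e : ℕ → ℕ) (r t j : ℕ) : fro r e (range t) j = A e (r + 1) t j := by
  induction t generalizing j with
  | zero =>
    rw [range_zero, A_zero, Nat.multichoose_eq]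
    unfold fro
    simp
    exact_mod_cast Nat.choose_symm_of_eq_add (by omega)
  | succ t ih =>
    have h1 : range (t + 1) = insert t (range t) := range_add_one
    rw [h1, fro_insert' r e (range t) t notMem_range_self j, A_succ, ih]
    split_ifs with h
    · rw [ih]
    · rfl

theorem A_euler {e : ℕ → ℕ} (he : ∀ t, 1 ≤ e t) (m t j : ℕ) (hm : 1 ≤ m) :
    ((j : ℤ) + 1) * A e m t (j + 1) = ∑ l ∈ range (j + 1),
      ((m : ℤ) - ∑ s ∈ (range t).filter (fun s => e s ∣ l + 1), (e s : ℤ)) * A e m t (j - l) := by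
  obtain ⟨r, rfl⟩ := Nat.exists_eq_add_of_le' hm
  have h := fro_rec r e (range t) (fun i _ => he i) (j + 1)
  rw [fro_range] at h
  push_cast at h ⊢
  rw [h]
  refine sum_congr rfl fun l _ => ?_
  rw [fro_range]

end Pool.Agent.XD
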