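import Pool.Agent.XD.Num.Thr
import Pool.Agent.XD.Comb.KK

/-!
# XD, module N4: the comparison of the increments

By `Sys.ker` and `thr`, `dl (m, t+1) - dl (m, t) = kk N m d (e t)` and
`dl (m-1, t) - dl (m, t) = kk N m d 1`; then `kk_le` with a small `ε'`, and
`A e (m-1) t (d-1) = A e m t (d-1) - A e m t (d-2) ≥ (1 - ε'') A e m t (d-1)` for large `n`,
`A e (m-1) t (d - e t) ≤ A e m t (d - e t)`.
-/

set_option autoImplicit false

namespace Pool.Agent.XD

open Finset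

/-- The excess of the dimension in degree `d`. -/
noncomputable def dl (F : ℕ → ℕ → ℕ → ℕ) (e : ℕ → ℕ) (d m t : ℕ) : ℝ :=
  (F m t d : ℝ) - (A e m t d : ℝ)

theorem star (d : ℕ) (hd : 2 ≤ d) (IH : ∀ l < d, ∀ η : ℝ, 0 < η → ∃ n₀ : ℕ, Exact l η n₀)
    (η ε : ℝ) (hη : 0 < η) (hε : 0 < ε) : ∃ n₁ : ℕ, ∀ n, n₁ ≤ n →
    ∀ (e : ℕ → ℕ) (F : ℕ → ℕ → ℕ → ℕ), (∀ t, 2 ≤ e t) → Sys d e F → ∀ m t, m ≤ n →
      (∀ j < d, η * (n : ℝ) ^ j ≤ (A e m t j : ℝ)) → e t ≤ d →
      dl F e d m t ≤ dl F e d m (t + 1) ∧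
      (dl F e d m (t + 1) - dl F e d m t) * ((1 - ε) * (A e m t (d - 1) : ℝ)) ≤
        (dl F e d (m - 1) t - dl F e d m t) * (A e m t (d - e t) : ℝ) := by
  obtain ⟨C, hC, hkk⟩ := kk_le d
  have hε' : 0 < ε / (2 * (C + 1)) := by positivity
  obtain ⟨n₁, hn₁⟩ := thr d hd IH η (ε / (2 * (C + 1))) hη hε'
  refine ⟨max n₁ (⌈2 / (ε * η)⌉₊ + 1), fun n hn e F he hS m t hm hA het => ?_⟩
  have hna : n₁ ≤ n := le_trans (le_max_left _ _) hn
  have hnb : 2 / (ε * η) ≤ n := by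
    have h1 : ⌈2 / (ε * η)⌉₊ ≤ n := by
      have := le_trans (le_max_right _ _) hn
      omega
    exact le_trans (Nat.le_ceil _) (by exact_mod_cast h1)
  have hn0 : 1 ≤ n := by
    have := le_trans (le_max_right _ _) hn
    omega
  have hnR : (1 : ℝ) ≤ n := by exact_mod_cast hn0
  have he1 : ∀ t, 1 ≤ e t := fun t => le_trans (by norm_num) (he t)
  obtain ⟨hm1, hF, hF', τ, hτ⟩ := hn₁ n hna e F he hS m t hm hA
  obtain ⟨N, hN, hk1, hk2⟩ := hS.ker m t hm1
  have hk1' := hk1 het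
  have hk2' := hk2 (by omega)
  have het2 := he t
  -- the increments
  have c1 : (F m t (d - e t) : ℝ) = (A e m t (d - e t) : ℝ) := by
    exact_mod_cast hF (d - e t) (by omega)
  have c2 : (F m t (d - 1) : ℝ) = (A e m t (d - 1) : ℝ) := by
    exact_mod_cast hF (d - 1) (by omega)
  have c3 : (F m (t + 1) d : ℝ) + F m t (d - e t) = F m t d + kk N m d (e t) := by
    exact_mod_cast hk1'
  have c4 : (F (m - 1) t d : ℝ) + F m t (d - 1) = F m t d + kk N m d 1 := by
    exact_mod_cast hk2'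
  have c5 : (A e m (t + 1) d : ℝ) = (A e m t d : ℝ) - (A e m t (d - e t) : ℝ) := by
    rw [A_succ, if_pos het]
    push_cast
    ring
  have pas : ∀ j, (A e m t (j + 1) : ℝ) = (A e (m - 1) t (j + 1) : ℝ) + (A e m t j : ℝ) := by
    intro j
    have := A_pascal he1 (m - 1) t j
    rw [Nat.sub_add_cancel hm1] at this
    exact_mod_cast this
  have c6 : (A e m t d : ℝ) = (A e (m - 1) t d : ℝ) + (A e m t (d - 1) : ℝ) := by
    have := pas (d - 1)
    rwa [Nat.sub_add_cancel (by omega : 1 ≤ d)] at this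
  have i1 : dl F e d m (t + 1) - dl F e d m t = kk N m d (e t) := by
    unfold dl
    rw [c5]
    linarith
  have i2 : dl F e d (m - 1) t - dl F e d m t = kk N m d 1 := by
    unfold dl
    linarith
  have hkk0 : (0 : ℝ) ≤ kk N m d (e t) := Nat.cast_nonneg _
  have hkk1 : (0 : ℝ) ≤ kk N m d 1 := Nat.cast_nonneg _
  refine ⟨by linarith, ?_⟩
  rw [i1, i2]
  -- the numbers
  have hApos : ∀ j < d, (0 : ℝ) ≤ (A e m t j : ℝ) := fun j hj =>
    le_trans (by positivity) (hA j hj)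
  have hAposZ : ∀ j < d, (0 : ℤ) ≤ A e m t j := fun j hj => by exact_mod_cast hApos j hj
  have hA'pos : ∀ j < d, (0 : ℤ) ≤ A e (m - 1) t j := fun j hj => by
    rw [← hF' j hj]
    exact Int.natCast_nonneg _
  have a1 : (A e (m - 1) t (d - e t) : ℝ) ≤ (A e m t (d - e t) : ℝ) := by
    have := A_mono_m he1 (D := d) hA'pos (m' := m) (Nat.sub_le m 1) (j := d - e t) (by omega)
    exact_mod_cast this
  have g1 : (F (m - 1) t (d - 1) : ℝ) = (A e (m - 1) t (d - 1) : ℝ) := by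
    exact_mod_cast hF' (d - 1) (by omega)
  have g2 : (F (m - 1) t (d - e t) : ℝ) = (A e (m - 1) t (d - e t) : ℝ) := by
    exact_mod_cast hF' (d - e t) (by omega)
  by_cases hε1 : ε ≤ 1
  · have hmain := hkk (e t) m N (fun i j => F i t j) τ (ε / (2 * (C + 1))) het2 het hm1 hε'.le hN hτ
    rw [g1, g2] at hmain
    have a2 : (A e m t (d - 2) : ℝ) ≤ ε / 2 * (A e m t (d - 1) : ℝ) := by
      have h1 : (A e m t (d - 2) : ℝ) ≤ (m : ℝ) ^ (d - 2) := by
        exact_mod_cast A_le_pow he1 (D := d) hAposZ (j := d - 2) (by omega)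
      have h2 : (m : ℝ) ^ (d - 2) ≤ (n : ℝ) ^ (d - 2) := by
        have : (m : ℝ) ≤ n := by exact_mod_cast hm
        gcongr
      have h3 : (1 : ℝ) ≤ ε / 2 * η * n := by
        have h4 : 2 / (ε * η) * (ε * η) ≤ n * (ε * η) := by
          have : 0 < ε * η := by positivity
          gcongr
        rw [div_mul_cancel₀ _ (by positivity)] at h4
        linarith
      have h5 : (n : ℝ) ^ (d - 2) ≤ ε / 2 * (η * (n : ℝ) ^ (d - 1)) := by
        have h6 : (n : ℝ) ^ (d - 1) = (n : ℝ) ^ (d - 2) * n := by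
          rw [← pow_succ]
          congr 1
          omega
        rw [h6]
        have h7 : 0 < (n : ℝ) ^ (d - 2) := by positivity
        nlinarith
      have h8 := hA (d - 1) (by omega)
      have h9 : ε / 2 * (η * (n : ℝ) ^ (d - 1)) ≤ ε / 2 * (A e m t (d - 1) : ℝ) := by
        gcongr
      linarith
    have a3 : (1 - ε / 2) * (A e m t (d - 1) : ℝ) ≤ (A e (m - 1) t (d - 1) : ℝ) := by
      have := pas (d - 2)
      rw [show d - 2 + 1 = d - 1 by omega] at this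
      linarith
    have a4 : C * (ε / (2 * (C + 1))) ≤ ε / 2 := by
      rw [show C * (ε / (2 * (C + 1))) = ε / 2 * (C / (C + 1)) by
        field_simp]
      have : C / (C + 1) ≤ 1 := by
        rw [div_le_one (by positivity)]
        linarith
      nlinarith
    have hX := hApos (d - 1) (by omega)
    have a5 : (1 - ε) * (A e m t (d - 1) : ℝ)
        ≤ (1 - C * (ε / (2 * (C + 1)))) * (A e (m - 1) t (d - 1) : ℝ) := by
      have b1 : (1 - ε / 2) * (A e (m - 1) t (d - 1) : ℝ)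
          ≤ (1 - C * (ε / (2 * (C + 1)))) * (A e (m - 1) t (d - 1) : ℝ) := by
        have : (0 : ℝ) ≤ (A e (m - 1) t (d - 1) : ℝ) := by
          exact_mod_cast hA'pos (d - 1) (by omega)
        gcongr
      have b2 : (1 - ε / 2) * ((1 - ε / 2) * (A e m t (d - 1) : ℝ))
          ≤ (1 - ε / 2) * (A e (m - 1) t (d - 1) : ℝ) := by
        have : (0 : ℝ) ≤ 1 - ε / 2 := by linarith
        gcongr
      nlinarith [mul_nonneg (mul_nonneg hε.le hε.le) hX]
    calc (kk N m d (e t) : ℝ) * ((1 - ε) * (A e m t (d - 1) : ℝ))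
        ≤ (kk N m d (e t) : ℝ) * ((1 - C * (ε / (2 * (C + 1)))) * (A e (m - 1) t (d - 1) : ℝ)) := by
          gcongr
      _ = (1 - C * (ε / (2 * (C + 1)))) * (kk N m d (e t) : ℝ) * (A e (m - 1) t (d - 1) : ℝ) := by
          ring
      _ ≤ (kk N m d 1 : ℝ) * (A e (m - 1) t (d - e t) : ℝ) := hmain
      _ ≤ (kk N m d 1 : ℝ) * (A e m t (d - e t) : ℝ) := by gcongr
  · have h1 : (kk N m d (e t) : ℝ) * ((1 - ε) * (A e m t (d - 1) : ℝ)) ≤ 0 := by
      apply mul_nonpos_of_nonneg_of_nonpos hkk0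
      exact mul_nonpos_of_nonpos_of_nonneg (by linarith [not_le.1 hε1]) (hApos _ (by omega))
    exact le_trans h1 (mul_nonneg hkk1 (hApos _ (by omega)))

end Pool.Agent.XD
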